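import Pool.Agent.GT.StmtsF

/-!
# F_TOP: the rank of the generic fibre and of infinitely many fibres
-/

set_option autoImplicit false

namespace Pool.Agent.GT.F.H34

open Polynomial Pool.Agent.NJ

theorem sep_mono {B : Finset ℚ} {t : ℚ} {n m : ℕ} (h : n ≤ m) (hs : Sep B t m) : Sep B t n := by
  intro c hc
  obtain ⟨p, h1, h2, h3, h4⟩ := hs c hc
  exact ⟨p, h1, lt_of_le_of_lt h h2, h3, h4⟩

theorem inj_of_dif {e : Fin 3 → RatFunc ℚ} {u : RatFunc ℚ} {δ x y z : ℚ[X]}
    (hD : Dif (e 0) (e 1) (e 2) u δ x y z) : Function.Injective e := by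
  have key : ∀ (p : ℚ[X]), p ≠ 0 → u ^ 2 * algebraMap ℚ[X] (RatFunc ℚ) (δ * p) ≠ 0 := by
    intro p hp
    refine mul_ne_zero (pow_ne_zero 2 hD.u0) ?_
    exact (map_ne_zero_iff _ (IsFractionRing.injective ℚ[X] (RatFunc ℚ))).2
      (mul_ne_zero hD.d0 hp)
  have n12 : e 0 ≠ e 1 := by
    intro h
    have h1 := hD.h12
    rw [h, sub_self] at h1
    exact key x hD.x0 h1.symm
  have n23 : e 1 ≠ e 2 := by
    intro h
    have h1 := hD.h23
    rw [h, sub_self] at h1
    exact key y hD.y0 h1.symm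
  have n31 : e 2 ≠ e 0 := by
    intro h
    have h1 := hD.h31
    rw [h, sub_self] at h1
    exact key z hD.z0 h1.symm
  intro i j hij
  fin_cases i <;> fin_cases j
  · rfl
  · exact absurd hij n12
  · exact absurd hij.symm n31
  · exact absurd hij.symm n12
  · rfl
  · exact absurd hij n23
  · exact absurd hij n31
  · exact absurd hij.symm n23
  · rfl

/-- pairwise incongruent modulo doubles -/
def Pw {A : Type} [AddCommGroup A] (S : Finset A) : Prop :=
  ∀ a ∈ S, ∀ b ∈ S, (∃ c, a = b + (c + c)) → a = b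

theorem exists_max {A : Type} [AddCommGroup A] {N : ℕ} (h : Ix A N) :
    ∃ S : Finset A, Pw S ∧ ∀ P : A, ∃ s ∈ S, ∃ c, P = s + (c + c) := by
  classical
  have h0 : ∃ S : Finset A, Pw S ∧ S.card = 0 :=
    ⟨∅, fun a ha => absurd ha (Finset.notMem_empty a), Finset.card_empty⟩
  obtain ⟨S, hS, hc⟩ := Nat.findGreatest_spec (P := fun k => ∃ S : Finset A, Pw S ∧ S.card = k)
    (Nat.zero_le N) h0
  refine ⟨S, hS, ?_⟩
  intro P
  by_contra hcon
  have hP : ∀ s ∈ S, ∀ c, P ≠ s + (c + c) := by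
    intro s hs c hPc
    exact hcon ⟨s, hs, c, hPc⟩
  have hPS : P ∉ S := by
    intro hmem
    exact hP P hmem 0 (by rw [add_zero, add_zero])
  have hpw : Pw (insert P S) := by
    intro a ha b hb hab
    obtain ⟨c, hc⟩ := hab
    rcases Finset.mem_insert.mp ha with ha1 | ha1
    · rcases Finset.mem_insert.mp hb with hb1 | hb1
      · rw [ha1, hb1]
      · rw [ha1] at hc
        exact absurd hc (hP b hb1 c)
    · rcases Finset.mem_insert.mp hb with hb1 | hb1
      · exfalso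
        rw [hb1] at hc
        refine hP a ha1 (-c) ?_
        rw [hc]
        abel
      · exact hS a ha1 b hb1 ⟨c, hc⟩
  have hcard : (insert P S).card = S.card + 1 := Finset.card_insert_of_notMem hPS
  have hle : (insert P S).card ≤ N := h (insert P S) hpw
  have hle2 : (insert P S).card ≤ Nat.findGreatest
      (fun k => ∃ S : Finset A, Pw S ∧ S.card = k) N :=
    Nat.le_findGreatest hle ⟨insert P S, hpw, rfl⟩
  rw [hcard, ← hc] at hle2
  omega

theorem f_top (tor : TorStmt) (slb : SlbStmt) (fg : FgStmt) (rnk : RnkStmt) (roo : RooStmt)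
    (spS : SpStmt) (div : DivStmt) (alg : AlgStmt) (nsq : NsqStmt) : TopStmt := by
  let dq : DecidableEq ℚ := fun a b => Classical.propDecidable (a = b)
  let dr : DecidableEq (RatFunc ℚ) := fun a b => Classical.propDecidable (a = b)
  intro E e u δ x y z B hΔ hR hD hbad hB R hT hle
  have he : Function.Injective e := inj_of_dif hD
  obtain ⟨Z₀, hZ₀⟩ := roo E e hΔ hR he
  -- finitely many non-doubles
  have key : ∀ F : Finset (gen E).toAffine.Point, (∀ P ∈ F, ¬ ∃ Q, P = Q + Q) →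
      ∃ (n : ℕ) (Z : Finset ℚ), ∀ t : ℚ, t ∉ Z → Sep B t n →
        ∀ sp : (gen E).toAffine.Point →+ (fib E t).toAffine.Point, IsSp E t sp →
          ∀ P ∈ F, ¬ ∃ Q, sp P = Q + Q := by
    classical
    intro F
    induction F using Finset.induction_on with
    | empty =>
      intro _
      exact ⟨0, ∅, fun t _ _ sp _ P hP => absurd hP (Finset.notMem_empty P)⟩
    | insert P F hPF ih =>
      intro hF
      obtain ⟨n, Z, hn⟩ := ih (fun Q hQ => hF Q (Finset.mem_insert_of_mem hQ))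
      obtain ⟨n', Z', hn'⟩ := nsq E e u δ x y z B hΔ hR hD hbad hB P
        (hF P (Finset.mem_insert_self P F))
      refine ⟨max n n', Z ∪ Z', ?_⟩
      intro t ht hs sp hsp Q hQ
      rw [Finset.mem_union, not_or] at ht
      rcases Finset.mem_insert.mp hQ with rfl | hQ
      · exact hn' t ht.2 (sep_mono (le_max_right n n') hs) sp hsp
      · exact hn t ht.1 (sep_mono (le_max_left n n') hs) sp hsp Q hQ
  -- data at a good parameter
  have hgood : ∀ n : ℕ, ∀ t : ℚ, t ∈ {t : ℚ | (fib E t).Δ ≠ 0 ∧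
      (Sel (fib E t) (fun i => ev t (e i))).encard ≤ (4 * 2 ^ R : ℕ) ∧ Sep B t n} → t ∉ Z₀ →
      Ix (fib E t).toAffine.Point (4 * 2 ^ R) := by
    intro n t ht hZ
    obtain ⟨-, -, h3, h4⟩ := hZ₀ t hZ
    exact slb (fib E t) (fun i => ev t (e i)) h3 h4 (4 * 2 ^ R) ht.2.1
  -- the index of the doubles over `ℚ(T)`
  have hIx : Ix (gen E).toAffine.Point (4 * 2 ^ R) := by
    classical
    intro S hS
    obtain ⟨n, Z, hn⟩ := key (((S ×ˢ S).filter (fun p => p.1 ≠ p.2)).image
      (fun p => p.1 - p.2)) (by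
        intro P hP
        rw [Finset.mem_image] at hP
        obtain ⟨⟨a, b⟩, hab, rfl⟩ := hP
        rw [Finset.mem_filter, Finset.mem_product] at hab
        rintro ⟨Q, hQ⟩
        exact hab.2 (hS a hab.1.1 b hab.1.2 ⟨Q, by rw [← hQ]; abel⟩))
    obtain ⟨t, ht, htZ⟩ := (hT n).exists_notMem_finset (Z ∪ Z₀)
    rw [Finset.mem_union, not_or] at htZ
    obtain ⟨sp, hsp⟩ := spS E t ht.1
    have hd := hn t htZ.1 ht.2.2 sp hsp
    have hd' : ∀ a ∈ S, ∀ b ∈ S, (∃ c, sp (a - b) = c + c) → a = b := by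
      intro a ha b hb hc
      by_contra hne
      exact hd (a - b) (Finset.mem_image.mpr ⟨(a, b), Finset.mem_filter.mpr
        ⟨Finset.mem_product.mpr ⟨ha, hb⟩, hne⟩, rfl⟩) hc
    have hinj : Set.InjOn sp S := by
      intro a ha b hb hab
      refine hd' a ha b hb ⟨0, ?_⟩
      rw [map_sub, hab, sub_self, add_zero]
    rw [← Finset.card_image_of_injOn hinj]
    refine hgood n t ht htZ.2 (S.image sp) ?_
    intro a' ha' b' hb' hc
    rw [Finset.mem_image] at ha' hb'
    obtain ⟨a, ha, rfl⟩ := ha'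
    obtain ⟨b, hb, rfl⟩ := hb'
    obtain ⟨c, hc⟩ := hc
    rw [hd' a ha b hb ⟨c, by rw [map_sub, hc]; abel⟩]
  obtain ⟨S, hS, hmax⟩ := exists_max hIx
  classical
  obtain ⟨n, Z, hn⟩ := key (S.filter (fun P => ¬ ∃ Q, P = Q + Q))
    (fun P hP => (Finset.mem_filter.mp hP).2)
  -- the comparison at almost all good parameters
  have hcomp : ∀ t ∈ {t : ℚ | (fib E t).Δ ≠ 0 ∧
      (Sel (fib E t) (fun i => ev t (e i))).encard ≤ (4 * 2 ^ R : ℕ) ∧ Sep B t n} \
      ((Z ∪ Z₀ : Finset ℚ) : Set ℚ), rk (gen E) ≤ rk (fib E t) ∧ rk (fib E t) ≤ R := by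
    rintro t ⟨ht, htZ⟩
    rw [Finset.mem_coe, Finset.mem_union, not_or] at htZ
    obtain ⟨-, hden, hroots, hinj⟩ := hZ₀ t htZ.2
    have hI := hgood n t ht htZ.2
    obtain ⟨tor1, tor2, tor3⟩ := tor ℚ (fib E t) (fun i => ev t (e i)) hroots hinj
    obtain ⟨gor1, gor2, -⟩ := tor (RatFunc ℚ) (gen E) e hR he
    obtain ⟨sp, hsp⟩ := spS E t ht.1
    have hd := hn t htZ.1 ht.2.2 sp hsp
    refine ⟨?_, ?_⟩
    · have h1 := alg (gen E).toAffine.Point (fib E t).toAffine.Point sp ?_ ?_ (div E hΔ)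
      · exact h1
      · rintro P ⟨b, hb⟩
        obtain ⟨s, hs, c, hc⟩ := hmax P
        by_cases hdb : ∃ Q, s = Q + Q
        · obtain ⟨Q, hQ⟩ := hdb
          refine ⟨Q + c, ?_⟩
          rw [hc, hQ]
          abel
        · exfalso
          refine hd s (Finset.mem_filter.mpr ⟨hs, hdb⟩) ⟨b - sp c, ?_⟩
          have h2 : sp P = sp s + (sp c + sp c) := by
            rw [hc, map_add, map_add]
          have h3 : sp s = sp P - (sp c + sp c) := by
            rw [h2]
            abel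
          rw [h3, hb]
          abel
      · intro b hb
        rcases (tor1 b).mp hb with h0 | ⟨i, y', h', hb'⟩
        · exact ⟨0, add_zero 0, by rw [map_zero, h0]⟩
        · obtain ⟨y₀, hy₀, -, -⟩ := gor2 i
          obtain ⟨y₁, -, -, hy₁⟩ := tor2 i
          refine ⟨.some (e i) y₀ hy₀, ?_, ?_⟩
          · exact (gor1 _).mpr (Or.inr ⟨i, y₀, hy₀, rfl⟩)
          · obtain ⟨h'', he''⟩ := hsp.1 (e i) y₀ hy₀ (hden i)
            rw [he'', hb']
            have e1 := hy₁ y' h'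
            have e2 := hy₁ (ev t y₀) h''
            subst e1
            subst e2
            rfl
    · exact rnk (fib E t).toAffine.Point (fg (fib E t) ht.1 (4 * 2 ^ R) hI) tor3 R hI
  have hinf : ({t : ℚ | (fib E t).Δ ≠ 0 ∧
      (Sel (fib E t) (fun i => ev t (e i))).encard ≤ (4 * 2 ^ R : ℕ) ∧ Sep B t n} \
      ((Z ∪ Z₀ : Finset ℚ) : Set ℚ)).Infinite := (hT n).sdiff (Finset.finite_toSet _)
  have hrk : rk (gen E) = R := by
    obtain ⟨t, ht⟩ := hinf.nonempty
    obtain ⟨h1, h2⟩ := hcomp t ht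
    exact le_antisymm (h1.trans h2) hle
  refine ⟨hrk, hinf.mono ?_⟩
  intro t ht
  obtain ⟨h1, h2⟩ := hcomp t ht
  refine ⟨ht.1.1, ?_⟩
  rw [hrk] at h1 ⊢
  exact le_antisymm h2 h1

end Pool.Agent.GT.F.H34
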