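import Pool.Agent.GT.StmtsD

/-!
Row D_CHO of table gt: the choice of `r`.
-/

set_option autoImplicit false

namespace Pool.Agent.GT.D.H34

open Pool.Agent.GT.D

noncomputable section

theorem ra_ne_two (a : Fin 3 → ℤ) (s : ℤ) : (2 : Fin 3) ≠ ra a s := by
  unfold ra
  split_ifs <;> decide

theorem odd_one {a : Fin 3 → ℤ} (h : Old a) : a 1 % 2 = 1 := by
  by_contra h1
  have h2 : (2 : ℤ) ∣ a 1 := by omega
  have h3 : (2 : ℤ) ∣ a 2 := dvd_trans (by norm_num) h.two
  have h4 := (h.cop 1 2 (by decide)).isUnit_of_dvd' h2 h3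
  rw [Int.isUnit_iff] at h4
  omega

/-- the map `v ↦ y` -/
def yv : (Fin 3 → ZMod 2) →ₗ[ZMod 2] (Fin 3 → ZMod 2) where
  toFun v := ![v 1, v 1 + v 2, v 2]
  map_add' u v := by
    funext i
    fin_cases i
    · rfl
    · show (u 1 + v 1) + (u 2 + v 2) = (u 1 + u 2) + (v 1 + v 2)
      ring
    · rfl
  map_smul' c v := by
    funext i
    fin_cases i
    · rfl
    · show c * v 1 + c * v 2 = c * (v 1 + v 2)
      ring
    · rfl

/-- the block of the first three equations -/
def Lm (κ : ZMod 2) : (Fin 3 → ZMod 2) →ₗ[ZMod 2] (Fin 3 → ZMod 2) where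
  toFun v := ![v 0, v 2, v 1 + κ * v 2]
  map_add' u v := by
    funext i
    fin_cases i
    · rfl
    · rfl
    · show (u 1 + v 1) + κ * (u 2 + v 2) = (u 1 + κ * u 2) + (v 1 + κ * v 2)
      ring
  map_smul' c v := by
    funext i
    fin_cases i
    · rfl
    · rfl
    · show c * v 1 + κ * (c * v 2) = c * (v 1 + κ * v 2)
      ring

theorem Lm_inj (κ : ZMod 2) : Function.Injective (Lm κ) := by
  intro u v h
  have h0 : u 0 = v 0 := congrFun h 0
  have h2 : u 2 = v 2 := congrFun h 1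
  have h1 : u 1 + κ * u 2 = v 1 + κ * v 2 := congrFun h 2
  rw [h2] at h1
  have h1' : u 1 = v 1 := add_right_cancel h1
  funext i
  fin_cases i
  · exact h0
  · exact h1'
  · exact h2

theorem d_cho (hDia : DiaStmt) (hCrt : CrtStmt) (hAdd : AddStmt) (hVal : ValStmt) : ChoStmt := by
  classical
  intro a hold
  obtain ⟨addv, addu, add4, add8, -⟩ := hAdd
  obtain ⟨valn, -, -, -, vodd, l42, l82, -, -, -⟩ := hVal
  have ha1 := odd_one hold
  -- the sign
  obtain ⟨s, hs, hre⟩ : ∃ s : ℤ, (s = 1 ∨ s = -1) ∧ (0 < s * a 1 ∨ s * a 0 < 0) := by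
    by_cases h : a 1 < 0 ∧ 0 < a 0
    · exact ⟨-1, Or.inr rfl, Or.inl (by linarith [h.1])⟩
    · refine ⟨1, Or.inl rfl, ?_⟩
      rw [one_mul, one_mul]
      have n0 := hold.ne 0
      have n1 := hold.ne 1
      by_cases h1 : a 1 < 0
      · right
        have : ¬ 0 < a 0 := fun h0 => h ⟨h1, h0⟩
        omega
      · left
        omega
  have hs0 : s ≠ 0 := by rcases hs with h | h <;> rw [h] <;> norm_num
  -- the residue modulo 8
  set cz : ℤ := (3 * s * a 1) % 8 with hcz
  have hcz0 : 0 ≤ cz := Int.emod_nonneg _ (by norm_num)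
  have hcz8 : cz < 8 := Int.emod_lt_of_pos _ (by norm_num)
  obtain ⟨c, hc⟩ := Int.eq_ofNat_of_zero_le hcz0
  have hsa : (s * a 1) % 2 = 1 := by
    rcases hs with h | h <;> rw [h] <;> omega
  have hc2 : c % 2 = 1 := by
    have h1 : cz % 2 = 1 := by
      have : (3 * s * a 1) = 3 * (s * a 1) := by ring
      rw [hcz, this]; omega
    omega
  have hc8 : c < 8 := by omega
  have hca : (s * c * a 1) % 8 = 3 := by
    have e1 : ((c : ℤ)) % 8 = (3 * (s * a 1)) % 8 := by
      rw [← hc, hcz]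
      have : (3 * s * a 1) = 3 * (s * a 1) := by ring
      rw [this]
      omega
    have e2 : s * c * a 1 = c * (s * a 1) := by ring
    rw [e2]
    generalize s * a 1 = w at *
    have hw : w % 8 = 1 ∨ w % 8 = 3 ∨ w % 8 = 5 ∨ w % 8 = 7 := by omega
    rw [Int.mul_emod, e1, Int.mul_emod 3 w]
    rcases hw with h | h | h | h <;> rw [h] <;> norm_num
  have h8c : l8 (c : ℤ) = (if (c : ℤ) % 8 = 3 ∨ (c : ℤ) % 8 = 5 then 1 else 0) :=
    (vodd c (by omega)).2
  have hc0 : (c : ℤ) ≠ 0 := by omega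
  have h20 : (2 : ℤ) ≠ 0 := two_ne_zero
  set κ : ZMod 2 := l8 (2 * s * c * a 2) + vl 2 (2 * s * c * a 2) with hκ
  -- coefficients
  obtain ⟨δ, hδ⟩ := hDia 3 {q // q ∈ S1 a} (Lm κ)
    (fun q => ![if bq a q = 2 then 0 else l4 (q : ℕ), if bq a q = 2 then 0 else l8 (q : ℕ),
      if bq a q = 0 then 0 else l8 (q : ℕ)])
    (fun q => (if bq a q = ra a s then 0 else ul q (-1)) • LinearMap.proj 0 +
      (ul q 2) • (LinearMap.proj (bq a q)).comp yv)
    (fun q q' => if bq a q' = bq a q then 0 else ul q (q' : ℕ)) (Lm_inj κ)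
  set τ : ℕ → ZMod 2 := fun q => (if h : q ∈ S1 a then δ ⟨q, h⟩ else 1) +
    ul q (-(2 * s * a (bq a q + 2))) with hτ
  have hprime : ∀ q ∈ S0 a ∪ S1 a, q.Prime ∧ q ≠ 2 := by
    intro q hq
    rcases Finset.mem_union.mp hq with h | h
    · exact ⟨Nat.prime_of_mem_primeFactors (Finset.mem_filter.mp h).1, (Finset.mem_filter.mp h).2.1⟩
    · exact ⟨Nat.prime_of_mem_primeFactors (Finset.mem_filter.mp h).1, (Finset.mem_filter.mp h).2.1⟩
  obtain ⟨N, ρ, hN, hρ, hcr⟩ := hCrt (S0 a ∪ S1 a) τ c hprime hc2 hc8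
  refine ⟨s, N, ρ, hN, hρ, fun r hr hr2 hnd hmod => ?_⟩
  obtain ⟨hr8, hrq⟩ := hcr r hmod
  have hr0 : (r : ℤ) ≠ 0 := by exact_mod_cast hr.ne_zero
  have hrc : ((r : ℤ)) % 8 = c := by omega
  -- the key symbol
  have hsym : ∀ q ∈ S0 a ∪ S1 a, ul q (-(2 * s * r * a (bq a q + 2))) =
      (if h : q ∈ S1 a then δ ⟨q, h⟩ else 1) := by
    intro q hq
    obtain ⟨hqp, hq2⟩ := hprime q hq
    have hA := addu q hqp hq2
    have e1 : -(2 * s * r * a (bq a q + 2)) = (r : ℤ) * (-(2 * s * a (bq a q + 2))) := by ring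
    have hne : -(2 * s * a (bq a q + 2)) ≠ 0 :=
      neg_ne_zero.mpr (mul_ne_zero (mul_ne_zero h20 hs0) (hold.ne _))
    rw [e1, hA.mul _ _ hr0 hne, (hrq q hq).2, hτ]
    show (if h : q ∈ S1 a then δ ⟨q, h⟩ else 1) + ul q (-(2 * s * a (bq a q + 2))) +
      ul q (-(2 * s * a (bq a q + 2))) = _
    rw [add_assoc, CharTwo.add_self_eq_zero, add_zero]
  refine ⟨hr, hr2, hs, hnd, hre, ?_, ?_, ?_⟩
  · -- m16
    have e2 : (s * r * a 1) % 8 = 3 := by
      have e3 : (s * r * a 1) % 8 = (s * c * a 1) % 8 := by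
        have e4 : (r : ℤ) ≡ c [ZMOD 8] := by
          show (r : ℤ) % 8 = (c : ℤ) % 8
          omega
        exact (((Int.ModEq.refl s).mul e4).mul (Int.ModEq.refl (a 1)))
      rw [e3, hca]
    have e5 : 2 * s * r * a 1 = 2 * (s * r * a 1) := by ring
    rw [e5]
    omega
  · intro q hq
    rw [hsym q (Finset.mem_union_left _ hq), dif_neg]
    intro h
    have h0 := (Finset.mem_filter.mp hq).2.2
    have h1 := (Finset.mem_filter.mp h).2.2
    rw [h0] at h1
    exact zero_ne_one h1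
  · intro ε y η hsys
    obtain ⟨hy, t1, t2, t3, tq⟩ := hsys
    -- kappa
    have hκr : l8 (2 * s * r * a 2) + vl 2 (2 * s * r * a 2) = κ := by
      have e1 : 2 * s * (r : ℤ) * a 2 = (r : ℤ) * (2 * s * a 2) := by ring
      have e2 : 2 * s * (c : ℤ) * a 2 = (c : ℤ) * (2 * s * a 2) := by ring
      have hne : 2 * s * a 2 ≠ 0 := mul_ne_zero (mul_ne_zero h20 hs0) (hold.ne _)
      have hl : l8 (r : ℤ) = l8 (c : ℤ) := by
        rw [h8c, (vodd r (by omega)).2, hrc]
        have : (c : ℤ) % 8 = c := by omega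
        rw [this]
      have hv : vl 2 (r : ℤ) = vl 2 (c : ℤ) := by
        rw [(valn 2 r Nat.prime_two (by omega)).1, (valn 2 c Nat.prime_two (by omega)).1]
      rw [hκ, e1, e2, add8.mul _ _ hr0 hne, add8.mul _ _ hc0 hne, (addv 2 Nat.prime_two).mul _ _ hr0 hne,
        (addv 2 Nat.prime_two).mul _ _ hc0 hne, hl, hv]
    rw [hκr] at t3
    have l4m : l4 (-1) = 1 := by
      rw [(vodd (-1) (by norm_num)).1]; rfl
    have l8m : l8 (-1) = 0 := by
      rw [(vodd (-1) (by norm_num)).2]; rfl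
    have hy1 : y 1 = y 0 + y 2 := by
      have : y 1 = (y 0 + y 1 + y 2) + (y 0 + y 2) := by
        have e : (y 0 + y 1 + y 2) + (y 0 + y 2) = y 1 + (y 0 + y 0) + (y 2 + y 2) := by ring
        rw [e, CharTwo.add_self_eq_zero, CharTwo.add_self_eq_zero, add_zero, add_zero]
      rw [this, hy, zero_add]
    have hyv : yv ![ε, y 0, y 2] = y := by
      funext i
      fin_cases i
      · rfl
      · show y 0 + y 2 = y 1
        exact hy1.symm
      · rfl
    obtain ⟨hv, hη⟩ := hδ ![ε, y 0, y 2] (fun q => η q) (by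
      funext i
      have hsum : (∑ q : {q // q ∈ S1 a}, η q • (![if bq a q = 2 then 0 else l4 (q : ℕ),
          if bq a q = 2 then 0 else l8 (q : ℕ), if bq a q = 0 then 0 else l8 (q : ℕ)] :
            Fin 3 → ZMod 2)) i =
          ∑ q : {q // q ∈ S1 a}, η q * (![if bq a q = 2 then 0 else l4 (q : ℕ),
          if bq a q = 2 then 0 else l8 (q : ℕ), if bq a q = 0 then 0 else l8 (q : ℕ)] :
            Fin 3 → ZMod 2) i := by
        rw [Finset.sum_apply]
        rfl
      show Lm κ ![ε, y 0, y 2] i + (∑ q : {q // q ∈ S1 a}, η q • (![if bq a q = 2 then 0 else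
          l4 (q : ℕ), if bq a q = 2 then 0 else l8 (q : ℕ), if bq a q = 0 then 0 else
          l8 (q : ℕ)] : Fin 3 → ZMod 2)) i = 0
      rw [hsum]
      fin_cases i
      · show ε + ∑ q : {q // q ∈ S1 a}, η q * (if bq a q = 2 then 0 else l4 (q : ℕ)) = 0
        rw [Finset.sum_coe_sort (S1 a) (fun q => η q * (if bq a q = 2 then 0 else l4 (q : ℕ)))]
        unfold Fm at t1
        rw [if_neg (ra_ne_two a s), l4m, l42, mul_one, mul_zero, add_zero] at t1
        have e : ∑ q ∈ S1 a, η q * (if bq a q = 2 then 0 else l4 (q : ℕ)) =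
            ∑ q ∈ S1 a, (if bq a q = 2 then 0 else η q) * l4 (q : ℕ) := by
          refine Finset.sum_congr rfl fun q _ => ?_
          split_ifs <;> ring
        rw [e]
        exact t1
      · show y 2 + ∑ q : {q // q ∈ S1 a}, η q * (if bq a q = 2 then 0 else l8 (q : ℕ)) = 0
        rw [Finset.sum_coe_sort (S1 a) (fun q => η q * (if bq a q = 2 then 0 else l8 (q : ℕ)))]
        unfold Fm at t2
        rw [l8m, l82, mul_zero, mul_zero, zero_add, zero_add] at t2
        have e : ∑ q ∈ S1 a, η q * (if bq a q = 2 then 0 else l8 (q : ℕ)) = y 2 := by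
          rw [← t2]
          refine Finset.sum_congr rfl fun q _ => ?_
          split_ifs <;> ring
        rw [e, CharTwo.add_self_eq_zero]
      · show y 0 + κ * y 2 + ∑ q : {q // q ∈ S1 a}, η q * (if bq a q = 0 then 0 else l8 (q : ℕ)) = 0
        rw [Finset.sum_coe_sort (S1 a) (fun q => η q * (if bq a q = 0 then 0 else l8 (q : ℕ)))]
        unfold Fm at t3
        rw [l8m, l82, mul_zero, mul_zero, zero_add, zero_add] at t3
        have e : ∑ q ∈ S1 a, η q * (if bq a q = 0 then 0 else l8 (q : ℕ)) =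
            ∑ q ∈ S1 a, (if bq a q = 0 then 0 else η q) * l8 (q : ℕ) := by
          refine Finset.sum_congr rfl fun q _ => ?_
          split_ifs <;> ring
        rw [e]
        have e2 : y 0 + κ * y 2 + ∑ q ∈ S1 a, (if bq a q = 0 then 0 else η q) * l8 (q : ℕ) =
            (∑ q ∈ S1 a, (if bq a q = 0 then 0 else η q) * l8 (q : ℕ) + y 0) + y 2 * κ := by ring
        rw [e2, t3, CharTwo.add_self_eq_zero]) (by
      intro q
      have hq := tq q q.2
      have hd : δ q = ul q (-(2 * s * r * a (bq a q + 2))) := by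
        rw [hsym q (Finset.mem_union_right _ q.2), dif_pos q.2]
      show (if bq a q = ra a s then 0 else ul q (-1)) * ε + ul q 2 * (yv ![ε, y 0, y 2]) (bq a q) +
        ∑ q' : {q // q ∈ S1 a}, (if bq a q' = bq a q then 0 else ul q (q' : ℕ)) * η q' +
        δ q * η q = 0
      rw [hyv, Finset.sum_coe_sort (S1 a)
        (fun q' => (if bq a q' = bq a q then 0 else ul q (q' : ℕ)) * η q'), hd]
      unfold Fm at hq
      have e : (if bq a q = ra a s then 0 else ul q (-1)) * ε + ul q 2 * y (bq a q) +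
          ∑ q' ∈ S1 a, (if bq a q' = bq a q then 0 else ul q (q' : ℕ)) * η q' =
          η q * ul q (-(2 * s * r * a (bq a q + 2))) := by
        rw [← hq]
        congr 1
        · congr 1
          · split_ifs <;> ring
          · ring
        · refine Finset.sum_congr rfl fun q' _ => ?_
          split_ifs <;> ring
      rw [e, mul_comm, CharTwo.add_self_eq_zero])
    have h0 : ε = 0 := congrFun hv 0
    have h1 : y 0 = 0 := congrFun hv 1
    have h2 : y 2 = 0 := congrFun hv 2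
    refine ⟨h0, ?_, ?_⟩
    · intro i
      fin_cases i
      · exact h1
      · show y 1 = 0
        rw [hy1, h1, h2, add_zero]
      · exact h2
    · intro q hq
      exact congrFun hη ⟨q, hq⟩

end

end Pool.Agent.GT.D.H34
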