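import Pool.Agent.GT.StmtsD
import Pool.Agent.Helper24_NJ.Gen
import Pool.Agent.Helper24_NJ.Nis
import Pool.Agent.Helper27_NJ.Tor
import Pool.Agent.Helper33_NJ.Fib
import Pool.Agent.Helper36_NJ.Pol
import Pool.Agent.Helper47_NJ.Rk0

/-!
# D_FIN: the final theorem of squad GT (MP_ba5221_nt)
-/

set_option autoImplicit false

namespace Pool.Agent.GT.D.H34

open Polynomial Pool.Agent.NJ

theorem triv_scale {e₂ e₃ lam : ℚ} (hlam : lam ≠ 0) (h : Triv e₂ e₃) :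
    Triv (lam ^ 2 * e₂) (lam ^ 2 * e₃) := by
  intro X Y hXY
  have h1 : (Y / lam ^ 3) ^ 2 = (X / lam ^ 2) * (X / lam ^ 2 - e₂) * (X / lam ^ 2 - e₃) := by
    have e : (X / lam ^ 2) * (X / lam ^ 2 - e₂) * (X / lam ^ 2 - e₃) =
        (X * (X - lam ^ 2 * e₂) * (X - lam ^ 2 * e₃)) / lam ^ 6 := by
      field_simp
    rw [e, ← hXY]
    field_simp
  have h2 := h _ _ h1
  rcases div_eq_zero_iff.mp h2 with h3 | h3
  · exact h3
  · exact absurd h3 (pow_ne_zero 3 hlam)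

theorem d_fin (bdr : BdrStmt) (frm : FrmStmt) (ldc : LdcStmt) (twi : TwiStmt) : D.MainStmt := by
  intro hGT E hΔ hni h2 hb
  have hg : (gen E).Δ ≠ 0 := by
    unfold gen
    rw [WeierstrassCurve.map_Δ]
    exact (map_ne_zero_iff _ (IsFractionRing.injective ℚ[X] (RatFunc ℚ))).2 hΔ
  obtain ⟨e₁, e₂, e₃, hR, h12, h23, h31⟩ := NJ.H27.tor (gen E) hg h2
  obtain ⟨u, δ, x, y, z, hD⟩ := NJ.H36.pol e₁ e₂ e₃ h12 h23 h31
  have hn := NJ.H24.nis E hΔ hni e₁ e₂ e₃ u δ x y z hR hD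
  have hr := bdr E hΔ hb e₁ e₂ e₃ u δ x y z hR hD
  obtain ⟨ι, i1, i2, D, w, hw, hf⟩ := frm δ x y z hD.d0 hD.x0 hD.y0 hD.z0 hD.sum hD.cop hn hr
  obtain ⟨c, N, ρ, n₀, hc, hN, hρ, hL⟩ := ldc hGT ι D
  refine ⟨c, N, ρ, n₀, hc, hN, hρ, ?_⟩
  intro r hrp hn0 hmod
  have hInf := hL r hrp hn0 hmod
  have hk : c * (r : ℤ) ≠ 0 := mul_ne_zero hc (Int.natCast_ne_zero.mpr hrp.ne_zero)
  obtain ⟨hΔ', hT⟩ := twi E (c * r) hk hΔ
  obtain ⟨hR', hD'⟩ := hT e₁ e₂ e₃ u δ x y z hR hD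
  have hp : {t : ℚ | Triv (-((C ((c * r : ℤ) : ℚ) * δ * x).eval t))
      ((C ((c * r : ℤ) : ℚ) * δ * z).eval t)}.Infinite := by
    have hfin : {t : ℚ | w.eval t = 0}.Finite := by
      refine w.roots.toFinset.finite_toSet.subset ?_
      intro t ht
      rw [Finset.mem_coe, Multiset.mem_toFinset, mem_roots hw]
      exact ht
    refine (hInf.sdiff hfin).mono ?_
    rintro t ⟨⟨u', v', hv, rfl, hL', hTr⟩, hw'⟩
    obtain ⟨lam, hlam, e1, e2, e3⟩ := hf u' v' hv hL' hw'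
    have hs := triv_scale hlam hTr
    show Triv (-((C ((c * r : ℤ) : ℚ) * δ * x).eval ((u' : ℚ) / (v' : ℚ))))
      ((C ((c * r : ℤ) : ℚ) * δ * z).eval ((u' : ℚ) / (v' : ℚ)))
    have f1 : -((C ((c * r : ℤ) : ℚ) * δ * x).eval ((u' : ℚ) / (v' : ℚ))) =
        lam ^ 2 * ((-(c * r * D.F u' v' * D.A 2 u' v') : ℤ) : ℚ) := by
      rw [mul_assoc (C _) δ x, eval_mul, eval_C, e1]
      push_cast
      ring
    have f3 : (C ((c * r : ℤ) : ℚ) * δ * z).eval ((u' : ℚ) / (v' : ℚ)) =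
        lam ^ 2 * ((c * r * D.F u' v' * D.A 1 u' v' : ℤ) : ℚ) := by
      rw [mul_assoc (C _) δ z, eval_mul, eval_C, e3]
      push_cast
      ring
    rw [f1, f3]
    exact hs
  have hF := NJ.H33.fib (twist E (c * r)) _ _ _ _ _ x y z hΔ' hR' hD' hp
  have hG := NJ.H47.rk0 (RatFunc ℚ) (gen (twist E (c * r)))
    (NJ.H24.gen_thm (twist E (c * r)) hΔ' hF)
  refine ⟨hG, hF.mono ?_⟩
  rintro t ⟨ht1, ht2⟩
  exact ⟨ht1, by rw [hG]; exact NJ.H47.rk0 ℚ (fib (twist E (c * r)) t) ht2⟩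

end Pool.Agent.GT.D.H34
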