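import Pool.Agent.GT.StmtsD

set_option autoImplicit false

namespace Pool.Agent.GT.D.H34

theorem val_zero {p : ℕ} {n : ℤ} (h : ¬ (p : ℤ) ∣ n) : padicValInt p n = 0 := by
  unfold padicValInt
  rw [padicValNat.eq_zero_of_not_dvd]
  intro h2
  exact h (Int.natCast_dvd.mpr h2)

theorem un_of_not_dvd {p : ℕ} {n : ℤ} (h : ¬ (p : ℤ) ∣ n) : un p n = n := by
  unfold un
  rw [val_zero h, pow_zero, Int.ediv_one]

theorem d_val : ValStmt := by
  refine ⟨?_, ?_, ?_, ?_, ?_, ?_, ?_, ?_, ?_, ?_⟩
  · intro p n _ h
    refine ⟨?_, un_of_not_dvd h⟩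
    unfold vl
    rw [val_zero h, Nat.cast_zero]
  · intro p hp
    have : Fact p.Prime := ⟨hp⟩
    have h1 : padicValInt p (p : ℤ) = 1 := by
      unfold padicValInt
      rw [Int.natAbs_natCast]
      exact padicValNat_self
    unfold vl un
    rw [h1, pow_one, Nat.cast_one]
    refine ⟨rfl, Int.ediv_self ?_⟩
    exact_mod_cast hp.ne_zero
  · intro p n _ _ h
    unfold ul
    rw [un_of_not_dvd h]
    exact ⟨fun h1 => if_pos h1, fun h1 => if_neg h1⟩
  · intro p hp _
    have : Fact p.Prime := ⟨hp⟩
    have h1 : padicValInt p (p : ℤ) = 1 := by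
      unfold padicValInt
      rw [Int.natAbs_natCast]
      exact padicValNat_self
    unfold ul un
    rw [h1, pow_one, Int.ediv_self (by exact_mod_cast hp.ne_zero)]
    refine if_pos ?_
    rw [Int.cast_one]
    exact ⟨1, (mul_one 1).symm⟩
  · intro n hn
    have h : ¬ ((2 : ℕ) : ℤ) ∣ n := by
      intro hd
      push_cast at hd
      omega
    unfold l4 l8
    rw [un_of_not_dvd h]
    exact ⟨rfl, rfl⟩
  · have h1 : un 2 2 = 1 := by
      unfold un
      have h2 : padicValInt 2 2 = 1 := by
        unfold padicValInt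
        show padicValNat 2 2 = 1
        exact padicValNat_self
      rw [h2]
      norm_num
    unfold l4
    rw [h1]
    rfl
  · have h1 : un 2 2 = 1 := by
      unfold un
      have h2 : padicValInt 2 2 = 1 := by
        unfold padicValInt
        show padicValNat 2 2 = 1
        exact padicValNat_self
      rw [h2]
      norm_num
    unfold l8
    rw [h1]
    rfl
  · unfold vl
    rw [val_zero (by norm_num), Nat.cast_zero]
  · unfold sg
    exact if_pos (by norm_num)
  · intro p hp
    unfold sg
    exact if_neg (by omega)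

end Pool.Agent.GT.D.H34
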