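import Pool.Agent.GT.StmtsE
import Pool.Agent.Helper67_GT.D_PRI

/-!
Row E_PRE of the squad GT: the primes from the theorem of Green and Tao.
-/

set_option autoImplicit false

namespace Pool.Agent.GT.OF.H34

open Polynomial Pool.Agent.NJ Pool.Agent.GT.D Pool.Agent.GT.D.H67

/-- a number which is `1` modulo `A` and a nonresidue modulo the odd prime `r` -/
theorem ex_b (val : ValStmt) {r : ℕ} (hr : r.Prime) (h2 : r ≠ 2) {A : ℕ} (hc : A.Coprime r) :
    ∃ b : ℕ, b.Coprime (A * r) ∧ b ≡ 1 [MOD A] ∧ ∀ x : ℕ, x ≡ b [MOD r] → ul r (x : ℤ) = 1 := by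
  haveI : Fact r.Prime := ⟨hr⟩
  obtain ⟨ν, hν⟩ := FiniteField.exists_nonsquare (F := ZMod r) (by
    rw [ZMod.ringChar_zmod_n]; exact h2)
  obtain ⟨b, hb1, hb2⟩ := Nat.chineseRemainder hc 1 ν.val
  have hν0 : ν ≠ 0 := by
    rintro rfl
    exact hν (IsSquare.zero)
  have hbν : ((b : ℕ) : ZMod r) = ν := by
    have h1 : ((b : ℕ) : ZMod r) = ((ν.val : ℕ) : ZMod r) := (ZMod.natCast_eq_natCast_iff _ _ _).2 hb2
    rw [h1, ZMod.natCast_zmod_val]
  have hx : ∀ x : ℕ, x ≡ b [MOD r] → ((x : ℕ) : ZMod r) = ν := by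
    intro x hx
    rw [← hbν]
    exact (ZMod.natCast_eq_natCast_iff _ _ _).2 hx
  refine ⟨b, ?_, hb1, ?_⟩
  · refine Nat.Coprime.mul_right ?_ ?_
    · have h1 : Nat.gcd b A = Nat.gcd 1 A := hb1.gcd_eq
      unfold Nat.Coprime
      rw [h1, Nat.gcd_one_left]
    · refine Nat.Coprime.symm ?_
      rw [Nat.Prime.coprime_iff_not_dvd hr]
      intro hd
      rw [← ZMod.natCast_eq_zero_iff, hbν] at hd
      exact hν0 hd
  · intro x hxb
    have h1 := hx x hxb
    have h3 : ((x : ℤ) : ZMod r) = ν := by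
      rw [← h1]; push_cast; rfl
    have hnd : ¬ (r : ℤ) ∣ (x : ℤ) := by
      rw [← ZMod.intCast_zmod_eq_zero_iff_dvd, h3]
      exact hν0
    refine (val.2.2.1 r x hr h2 hnd).2 ?_
    rw [h3]
    exact hν

/-- the odd primes different from `r` which divide one of the `P i` -/
def pq (P : Fin 3 → ℤ) (r : ℕ) : Finset ℕ :=
  (2 * P 0 * P 1 * P 2).natAbs.primeFactors.filter fun q => q ≠ 2 ∧ q ≠ r

theorem mem_pq {P : Fin 3 → ℤ} {r q : ℕ} (h : q ∈ pq P r) :
    q.Prime ∧ q ≠ 2 ∧ q ≠ r := by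
  unfold pq at h
  rw [Finset.mem_filter, Nat.mem_primeFactors] at h
  exact ⟨h.1.1, h.2.1, h.2.2⟩

theorem pq_mem {P : Fin 3 → ℤ} {r q : ℕ} (hP : ∀ i, P i ≠ 0) (hq : q.Prime) (h2 : q ≠ 2)
    (hr : q ≠ r) (h : (q : ℤ) ∣ 2 * P 0 * P 1 * P 2) : q ∈ pq P r := by
  unfold pq
  rw [Finset.mem_filter, Nat.mem_primeFactors]
  refine ⟨⟨hq, Int.natCast_dvd.1 h, ?_⟩, h2, hr⟩
  rw [Ne, Int.natAbs_eq_zero]
  exact mul_ne_zero (mul_ne_zero (mul_ne_zero two_ne_zero (hP 0)) (hP 1)) (hP 2)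

theorem e_pre (rcp : RcpStmt) (add : AddStmt) (val : ValStmt) (exp : ExpStmt) : PreStmt := by
  intro gt ι _ _ P r bl m st n hP0 hPs hr hr2 hrd hinj hnr hst hdeg hsum N n₀
  set Q : Finset ℕ := pq P r ∪ dq n with hQdef
  have hrQ : r ∉ Q := by
    rw [hQdef, Finset.mem_union, not_or]
    constructor
    · intro h
      exact (mem_pq h).2.2 rfl
    · intro h
      obtain ⟨-, -, l, l', hd, h0⟩ := mem_dq h
      refine not_dvd_of_lt h0 ?_ hd
      have h1 := hnr l
      have h2 := hnr l'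
      omega
  have hQp : ∀ q ∈ Q, q.Prime ∧ q ≠ 2 := by
    intro q hq
    rw [hQdef, Finset.mem_union] at hq
    rcases hq with hq | hq
    · exact ⟨(mem_pq hq).1, (mem_pq hq).2.1⟩
    · exact ⟨(mem_dq hq).1, (mem_dq hq).2.1⟩
  set A : ℕ := 2 ^ (N + 3) * ∏ q ∈ Q, q ^ (N + 3) with hAdef
  have hApos : 0 < A := by
    rw [hAdef]
    refine Nat.mul_pos (by positivity) (Finset.prod_pos fun q hq => ?_)
    exact pow_pos (hQp q hq).1.pos _
  have hAr : A.Coprime r := by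
    rw [hAdef]
    refine Nat.Coprime.mul_left ?_ ?_
    · exact Nat.Coprime.pow_left _ ((Nat.coprime_primes Nat.prime_two hr).2 (Ne.symm hr2))
    · refine Nat.Coprime.prod_left fun q hq => ?_
      refine Nat.Coprime.pow_left _ ((Nat.coprime_primes (hQp q hq).1 hr).2 ?_)
      rintro rfl
      exact hrQ hq
  have hA2 : 2 ^ (N + 3) ∣ A := by
    rw [hAdef]; exact Dvd.intro _ rfl
  have hAq : ∀ q ∈ Q, q ^ (N + 3) ∣ A := by
    intro q hq
    rw [hAdef]
    exact Dvd.dvd.mul_left (Finset.dvd_prod_of_mem (fun q => q ^ (N + 3)) hq) _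
  obtain ⟨b, hbc, hb1, hbr⟩ := ex_b val hr hr2 hAr
  obtain ⟨a', d, hle, hd, hNd, hpr⟩ := gt (2 + ∑ l, n l) (A * r) b (Nat.mul_pos hApos hr.pos) hbc
    (n₀ + r + (P 0).natAbs + (P 1).natAbs + (P 2).natAbs + 3)
  have hbig : ∀ i, (P i).natAbs < a' := by
    intro i
    fin_cases i
    · show (P 0).natAbs < a'; omega
    · show (P 1).natAbs < a'; omega
    · show (P 2).natAbs < a'; omega
  have hra : r < a' := by omega
  have ha' : a'.Prime := by
    have := (hpr 0 (by omega)).1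
    simpa using this
  have ha'd : (a' + d).Prime := by
    have := (hpr 1 (by omega)).1
    simpa using this
  have hcop : a'.Coprime d := by
    rw [Nat.Prime.coprime_iff_not_dvd ha']
    intro hdv
    have h1 : a' ∣ a' + d := Dvd.dvd.add (dvd_refl _) hdv
    rcases (Nat.dvd_prime ha'd).1 h1 with h2 | h2
    · exact ha'.one_lt.ne' h2
    · omega
  have hK : ∀ l, n l < 2 + ∑ l, n l := by
    intro l
    have := Finset.single_le_sum (f := n) (fun _ _ => Nat.zero_le _) (Finset.mem_univ l)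
    omega
  have hp : ∀ l, (a' + n l * d).Prime := fun l => (hpr (n l) (hK l)).1
  have hmod : ∀ l, a' + n l * d ≡ b [MOD (A * r)] := fun l => (hpr (n l) (hK l)).2
  have hmod0 : a' ≡ b [MOD (A * r)] := by
    have := (hpr 0 (by omega)).2
    simpa using this
  have hone : ∀ x : ℕ, x ≡ b [MOD (A * r)] → ∀ k : ℕ, k ∣ A → (k : ℤ) ∣ (x : ℤ) - 1 := by
    intro x hx k hk
    have h1 : x ≡ 1 [MOD k] :=
      ((hx.of_dvd (Dvd.dvd.mul_right hk r)).trans (hb1.of_dvd hk))
    have h2 : 1 ≡ x [MOD k] := h1.symm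
    exact_mod_cast (Nat.modEq_iff_dvd.1 h2)
  have h8' : ∀ x : ℕ, x ≡ b [MOD (A * r)] → x % 8 = 1 := by
    intro x hx
    have h1 : (8 : ℕ) ∣ A := by
      refine Dvd.dvd.trans ?_ hA2
      rw [pow_add]
      exact Dvd.intro_left (2 ^ N) (by norm_num)
    have h2 := hone x hx 8 h1
    have h3 : ((8 : ℕ) : ℤ) = 8 := rfl
    rw [h3] at h2
    omega
  have h8 : ∀ l, (a' + n l * d) % 8 = 1 := fun l => h8' _ (hmod l)
  have h80 : a' % 8 = 1 := h8' _ hmod0
  have hge : ∀ l, a' ≤ a' + n l * d := fun l => Nat.le_add_right _ _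
  have hqd : ∀ l, ∀ q ∈ Q, (q : ℤ) ∣ ((a' + n l * d : ℕ) : ℤ) - 1 := by
    intro l q hq
    refine hone _ (hmod l) q (Dvd.dvd.trans ?_ (hAq q hq))
    exact dvd_pow_self q (by omega)
  have hQul : ∀ l, ∀ q ∈ Q, ¬ q ∣ (a' + n l * d) ∧ ul q ((a' + n l * d : ℕ) : ℤ) = 0 := by
    intro l q hq
    have h1 := hqd l q hq
    have hqp := (hQp q hq).1
    have h2 : (((a' + n l * d : ℕ) : ℤ) : ZMod q) = 1 := by
      rw [← ZMod.intCast_zmod_eq_zero_iff_dvd] at h1
      rw [Int.cast_sub, Int.cast_one, sub_eq_zero] at h1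
      exact h1
    haveI : Fact q.Prime := ⟨hqp⟩
    have h3 : ¬ (q : ℤ) ∣ ((a' + n l * d : ℕ) : ℤ) := by
      rw [← ZMod.intCast_zmod_eq_zero_iff_dvd, h2]
      exact one_ne_zero
    refine ⟨fun h => h3 (Int.natCast_dvd_natCast.2 h), ?_⟩
    refine (val.2.2.1 q _ hqp (hQp q hq).2 h3).1 ?_
    rw [h2]
    exact IsSquare.one
  have hQul' : ∀ l, ∀ q ∈ Q, q.Prime ∧ q ≠ 2 ∧ ¬ q ∣ (a' + n l * d) ∧
      ul q ((a' + n l * d : ℕ) : ℤ) = 0 := fun l q hq =>
    ⟨(hQp q hq).1, (hQp q hq).2, (hQul l q hq).1, (hQul l q hq).2⟩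
  have hulr : ∀ l, ul r ((a' + n l * d : ℕ) : ℤ) = 1 := fun l =>
    hbr _ ((hmod l).of_dvd (Dvd.intro_left A rfl))
  have hcl : ∀ l, (a' + n l * d).Coprime d := by
    intro l
    rw [Nat.coprime_add_mul_right_left]
    exact hcop
  refine ⟨a', d, by omega, ha', hd, hcop, ul a' d, ?_⟩
  refine
    { P0 := hP0
      ps := hPs
      rp := hr
      r2 := hr2
      rd := hrd
      pr := hp
      inj := ?_
      m8 := h8
      nd := ?_
      cl := ?_
      ur := hulr
      mu := ?_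
      st1 := hst
      deg := hdeg
      sum := hsum a' d }
  · intro l l' h
    have h : a' + n l * d = a' + n l' * d := h
    have h1 : n l * d = n l' * d := Nat.add_left_cancel h
    exact hinj (Nat.eq_of_mul_eq_mul_right hd h1)
  · intro l i
    refine not_dvd_of_lt (hP0 i) ?_
    exact (hbig i).trans_le (hge l)
  · intro l q hq hqr hdv
    show (q : ℤ) ^ N ∣ ((a' + n l * d : ℕ) : ℤ) - 1
    have h1 : q ^ N ∣ A := by
      rcases eq_or_ne q 2 with rfl | h2
      · exact Dvd.dvd.trans (pow_dvd_pow 2 (by omega)) hA2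
      · refine Dvd.dvd.trans (pow_dvd_pow q (by omega)) (hAq q ?_)
        rw [hQdef, Finset.mem_union]
        exact Or.inl (pq_mem hP0 hq h2 hqr hdv)
    have h3 := hone _ (hmod l) (q ^ N) h1
    rwa [Nat.cast_pow] at h3
  · intro l l' hll
    show ul (a' + n l * d) ((a' + n l' * d : ℕ) : ℤ) = ul a' d
    set p := a' + n l * d with hpdef
    have hp2 : p ≠ 2 := by
      intro h
      have := h8 l
      rw [← hpdef, h] at this
      norm_num at this
    have hne : (n l' : ℤ) - n l ≠ 0 := by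
      intro h
      have : n l' = n l := by omega
      exact hll (hinj this).symm
    have hlt : ((n l' : ℤ) - n l).natAbs < p := by
      have h1 := hnr l
      have h2 := hnr l'
      have h3 := hge l
      omega
    have hnd1 : ¬ (p : ℤ) ∣ (n l' : ℤ) - n l := not_dvd_of_lt hne hlt
    have hnd2 : ¬ (p : ℤ) ∣ (d : ℤ) := by
      intro h
      have h1 : p ∣ d := Int.natCast_dvd_natCast.1 h
      have h2 := hcl l
      rw [← hpdef, Nat.Prime.coprime_iff_not_dvd (hp l)] at h2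
      exact h2 h1
    have hpi : Prime (p : ℤ) := Nat.prime_iff_prime_int.1 (hp l)
    have hnd : ¬ (p : ℤ) ∣ ((n l' : ℤ) - n l) * d := by
      intro h
      rcases hpi.dvd_or_dvd h with h | h
      · exact hnd1 h
      · exact hnd2 h
    have e1 : ul p ((a' + n l' * d : ℕ) : ℤ) = ul p (((n l' : ℤ) - n l) * d) := by
      refine (ul_congr val (hp l) hnd ?_).symm
      have : ((a' + n l' * d : ℕ) : ℤ) = (p : ℤ) + ((n l' : ℤ) - n l) * d := by
        rw [hpdef]; push_cast; ring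
      rw [this, Int.cast_add, Int.cast_natCast, ZMod.natCast_self, zero_add]
    have hd0 : (d : ℤ) ≠ 0 := by exact_mod_cast hd.ne'
    rw [e1, (add.2.1 p (hp l) hp2).mul _ _ hne hd0]
    have e2 : ul p ((n l' : ℤ) - n l) = 0 := by
      refine ul_zero add val exp rcp (hp l) (h8 l) Q (hQul' l) hne ?_
      intro q hq h2 hdv
      rw [hQdef, Finset.mem_union]
      exact Or.inr (dq_mem hq h2 l' l hdv hne)
    rw [e2, zero_add]
    refine rcp.2.2 p a' d (hp l) ha' (h8 l) h80 hd (hcl l) hcop ?_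
    rw [hpdef]
    unfold Nat.ModEq
    rw [Nat.add_mul_mod_self_right]

end Pool.Agent.GT.OF.H34
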