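import Pool.Agent.GT.StmtsD

set_option autoImplicit false

namespace Pool.Agent.GT.D.H34

theorem fin3_cases (i j : Fin 3) : i = j ∨ i = j + 1 ∨ i = j + 2 := by
  fin_cases i <;> fin_cases j <;> decide

theorem d_fex (ι : Type) [Fintype ι] [DecidableEq ι] (hE : ExpStmt) (hL : LocStmt ι) :
    FexStmt ι := by
  intro a s r bl m st p h hP x w hT hr f hf i
  obtain ⟨h1, h2, h3, h4⟩ := hL a s r bl m st p h hP x w hT
  have hp2 : ∀ l, p l ≠ 2 := by
    intro l e
    have := hP.new.m8 l
    rw [e] at this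
    norm_num at this
  have hS : ∀ q ∈ S1 a, q.Prime ∧ q ≠ 2 ∧ ∃ j, (q : ℤ) ∣ a j := by
    intro q hq
    unfold S1 at hq
    rw [Finset.mem_filter] at hq
    have hqp : q.Prime := Nat.prime_of_mem_primeFactors hq.1
    have hd : (q : ℤ) ∣ a 0 * a 1 * a 2 := Int.natCast_dvd.mpr (Nat.dvd_of_mem_primeFactors hq.1)
    refine ⟨hqp, hq.2.1, ?_⟩
    rcases (Nat.prime_iff_prime_int.mp hqp).dvd_or_dvd hd with h5 | h5
    · rcases (Nat.prime_iff_prime_int.mp hqp).dvd_or_dvd h5 with h6 | h6
      · exact ⟨0, h6⟩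
      · exact ⟨1, h6⟩
    · exact ⟨2, h5⟩
  have hSp : ∀ l, p l ∉ S1 a := by
    intro l hl
    obtain ⟨_, _, j, hj⟩ := hS _ hl
    exact hP.new.nd l j hj
  have hprime : ∀ q ∈ insert 2 (S1 a ∪ Finset.univ.image p), q.Prime := by
    intro q hq
    rw [Finset.mem_insert, Finset.mem_union, Finset.mem_image] at hq
    rcases hq with rfl | hq | ⟨l, _, rfl⟩
    · exact Nat.prime_two
    · exact (hS q hq).1
    · exact hP.new.pr l
  have hout : ∀ q : ℕ, q.Prime → q ∉ insert 2 (S1 a ∪ Finset.univ.image p) →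
      vl q (Xc (re a s r bl m st p) x w i) = 0 := by
    intro q hq hq2
    rw [Finset.mem_insert, Finset.mem_union, Finset.mem_image, not_or, not_or] at hq2
    obtain ⟨k1, k2, k3⟩ := hq2
    by_cases hqr : q = r
    · rw [hqr]
      exact hr i
    by_cases hq0 : q ∈ S0 a
    · exact h2 q hq0 i
    refine h3 q hq k1 hqr ?_ ?_ i
    · rw [Finset.mem_union, not_or]
      exact ⟨hq0, k2⟩
    · intro l e
      exact k3 ⟨l, Finset.mem_univ l, e.symm⟩
  rw [hE f hf _ (hT.ne i) _ hprime hout, Finset.sum_insert, Finset.sum_union, Finset.sum_image]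
  · have e1 : ∑ q ∈ S1 a, vl q (Xc (re a s r bl m st p) x w i) * f q =
        ∑ q ∈ S1 a, (if bq a q = i then 0 else
          vl q (Xc (re a s r bl m st p) x w (bq a q + 1))) * f q := by
      refine Finset.sum_congr rfl fun q hq => ?_
      obtain ⟨g1, g2, _⟩ := h1 q hq
      rcases fin3_cases i (bq a q) with e | e | e
      · rw [if_pos e.symm, e, g1]
      · have hne : ¬ bq a q = i := by
          rw [e]
          intro e'
          generalize bq a q = b at e'
          revert e'
          revert b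
          decide
        rw [if_neg hne, e]
      · have hne : ¬ bq a q = i := by
          rw [e]
          intro e'
          generalize bq a q = b at e'
          revert e'
          revert b
          decide
        rw [if_neg hne, e, g2]
    unfold Fm
    rw [e1, h4 i]
    have e2 : ((2 : ℕ) : ℤ) = 2 := rfl
    rw [e2]
    ring
  · intro l _ l' _ e
    exact hP.new.inj e
  · rw [Finset.disjoint_left]
    intro q hq hq'
    rw [Finset.mem_image] at hq'
    obtain ⟨l, _, rfl⟩ := hq'
    exact hSp l hq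
  · rw [Finset.mem_union, Finset.mem_image, not_or]
    refine ⟨fun hq => (hS 2 hq).2.1 rfl, ?_⟩
    rintro ⟨l, _, e⟩
    exact hp2 l e

end Pool.Agent.GT.D.H34
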